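import Pool.Agent.P.MP_f36f0e_al.Main

set_option autoImplicit false

theorem Pool.Agent.Results.MP_f36f0e_al.Example.result :
    ∃ (G : Type) (_ : Group G) (_ : TopologicalSpace G) (_ : IsTopologicalGroup G)
      (H M : Subgroup G),
      PolishSpace G ∧ LocallyCompactSpace G ∧
      (∃ K : Set G, IsCompact K ∧ Subgroup.closure K = ⊤) ∧
      IsClosed (H : Set G) ∧ H ≠ ⊤ ∧
      (¬ ∃ K : Subgroup G, IsClosed (K : Set G) ∧ H < K ∧ K < ⊤) ∧
      (∀ x : G, (∀ g : G, g⁻¹ * x * g ∈ H) → x = 1) ∧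
      Minimal (fun N : Subgroup G => N ≠ ⊥ ∧ IsClosed (N : Set G) ∧ N.Normal) M ∧
      (∀ x ∈ M, ∀ y ∈ M, x * y = y * x) ∧
      M < Subgroup.centralizer (M : Set G) :=
  Pool.Agent.P.MP_f36f0e_al.main
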